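import Pool.Agent.V5helper84.SL.Stm2

/-!
# Project SL: orthogonal pairs of algebraic classes in all weights
-/

open CategoryTheory AlgebraicGeometry Finset

set_option autoImplicit false

universe u v

namespace Pool.Agent.V5helper18.SL.PAIRS

open Pool.Agent.H914 Pool.Agent.H914.VarClass Pool.Agent.H914.VarClass.Obj
  Pool.Agent.H914.WeilCohomology Pool.Agent.H281R3.HT Pool.Agent.W552 Pool.Agent.W539.Ker
  Pool.Agent.V5helper84.SL

variable {k : Type u} [Field k] {𝒱 : VarClass k} {ops : CycleOps 𝒱}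
  {W : WeilCohomology.{u, v} ops} {X : 𝒱.Obj} {D : X.Cycles} {f : Module.End W.K (W.H X)}

lemma posSq_eq (hD : X.IsCyc 1 D) {n : ℕ} (hn : 2 * n ≤ X.dim) {ι : Type*} [Fintype ι]
    {x : ι → PM W X D n} (h : OM (BP W hD n hn) x) :
    posSq W X D n = (univ.filter (fun i => 0 < BP W hD n hn (x i) (x i))).card := by
  rw [← h.posIdx_eq (BP_symm hD hn), posSq, posIdx]
  congr 1
  ext r
  exact hasFamily_one hD hn r

lemma negSq_eq (hD : X.IsCyc 1 D) {n : ℕ} (hn : 2 * n ≤ X.dim) {ι : Type*} [Fintype ι]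
    {x : ι → PM W X D n} (h : OM (BP W hD n hn) x) :
    negSq W X D n = (univ.filter (fun i => BP W hD n hn (x i) (x i) < 0)).card := by
  have h3 := h.neg.posIdx_eq (B := -BP W hD n hn) (fun x y => by
    rw [LinearMap.neg_apply, LinearMap.neg_apply, LinearMap.neg_apply, LinearMap.neg_apply,
      BP_symm])
  have h5 : (univ.filter (fun i => 0 < (-BP W hD n hn) (x i) (x i))).card =
      (univ.filter (fun i => BP W hD n hn (x i) (x i) < 0)).card := by
    congr 1
    ext i
    rw [Finset.mem_filter, Finset.mem_filter, LinearMap.neg_apply, LinearMap.neg_apply,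
      neg_pos]
  rw [← h5, ← h3, negSq, posIdx]
  congr 1
  ext r
  exact hasFamily_neg hD hn r

/-- The orthogonal family in the codimension `c`, with the numbers of the signs. -/
theorem fam (F : Fr W X D f) {c : ℕ} (hc : c ≤ X.dim) :
    ∃ (ι : Type) (_ : Fintype ι) (y : ι → W.H X) (s : ι → ℚ),
    (∀ i, AS W X (y i)) ∧
    (∀ i, wt (W.isInternal X) X.dim (y i) = ((2 * c - X.dim : ℤ) : W.K) • y i) ∧
    (∀ i, bf W X D f (y i) (y i) = (s i : W.K)) ∧
    (∀ i j, i ≠ j → bf W X D f (y i) (y j) = 0) ∧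
    Fintype.card {i // 0 < s i} = posUp W X D (min c (X.dim - c)) ∧
    Fintype.card {i // s i < 0} = negUp W X D (min c (X.dim - c)) := by
  classical
  set c0 := min c (X.dim - c) with hc0
  have hle : ∀ n : Fin (c0 + 1), 2 * (n : ℕ) ≤ X.dim := fun n => by omega
  choose M x hx using fun n : Fin (c0 + 1) => exists_prim W F.hD (hle n)
  set L := LinearMap.mulLeft W.K (W.cl X D) with hL
  have hj : ∀ n : Fin (c0 + 1), (n : ℕ) ≤ c ∧ c - (n : ℕ) ≤ X.dim - 2 * (n : ℕ) :=
    fun n => by omega
  have hpm : ∀ (n : Fin (c0 + 1)) (t : Fin (M n)),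
      Primitive W X D n (x n t : X.Cycles) := fun n t => (x n t).2
  have hgr : ∀ (n : Fin (c0 + 1)) (z : X.Cycles), Primitive W X D n z →
      (L ^ (c - (n : ℕ))) (W.cl X z) ∈ algClasses W X c := fun n z hz => by
    have h1 : (L ^ (c - (n : ℕ))) (W.cl X z) ∈ algClasses W X ((n : ℕ) + (c - (n : ℕ))) :=
      (ap_alg F).map_L_pow (c - (n : ℕ)) ⟨z, hz.1, rfl⟩
    rwa [show (n : ℕ) + (c - (n : ℕ)) = c by have := (hj n).1; omega] at h1
  have hcp : ∀ n : Fin (c0 + 1), (0 : ℚ) < (c - (n : ℕ)).factorial *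
      ((X.dim - 2 * (n : ℕ) - (c - (n : ℕ))).factorial : ℚ)⁻¹ := by
    intro n; positivity
  refine ⟨Σ n : Fin (c0 + 1), Fin (M n), inferInstance,
    fun p => (L ^ (c - (p.1 : ℕ))) (W.cl X (x p.1 p.2 : X.Cycles)),
    fun p => (c - (p.1 : ℕ)).factorial *
      ((X.dim - 2 * (p.1 : ℕ) - (c - (p.1 : ℕ))).factorial : ℚ)⁻¹ *
      pairing ops X D p.1 (x p.1 p.2 : X.Cycles) (x p.1 p.2 : X.Cycles),
    ?_, ?_, ?_, ?_, ?_, ?_⟩
  · rintro ⟨n, t⟩
    exact AS.of (hgr n _ (hpm n t))
  · rintro ⟨n, t⟩
    rw [Fr.wt_gr (alg_gr (hgr n _ (hpm n t)))]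
    congr 1
    push_cast
    ring
  · rintro ⟨n, t⟩
    exact bf_same F (hle n) (hpm n t) (hpm n t) (hj n).2
  · rintro ⟨n, t⟩ ⟨n', t'⟩ hne
    by_cases hnn : n = n'
    · subst hnn
      have htt : t ≠ t' := by rintro rfl; exact hne rfl
      have h1 := bf_same F (hle n) (hpm n t) (hpm n t') (hj n).2
      have h2 : pairing ops X D n (x n t : X.Cycles) (x n t' : X.Cycles) = 0 := by
        have := (hx n).orth t t' htt
        rwa [BP_apply] at this
      rw [h2, mul_zero, Rat.cast_zero] at h1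
      exact h1
    · refine bf_cross F (hle n) (hle n') (fun h => hnn (Fin.ext h)) (hpm n t) (hpm n' t') ?_
        (hj n').2
      have h1 := (hj n).1
      have h2 := (hj n').1
      change (n : ℕ) + (c - (n : ℕ)) = (n' : ℕ) + (c - (n' : ℕ))
      omega
  · rw [Fintype.card_subtype, Finset.card_filter, Fintype.sum_sigma, posUp, Finset.sum_range]
    apply Finset.sum_congr rfl
    intro n _
    rw [posSq_eq F.hD (hle n) (hx n), Finset.card_filter]
    apply Finset.sum_congr rfl
    intro t _
    rw [BP_apply]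
    simp only [mul_pos_iff_of_pos_left (hcp n)]
  · rw [Fintype.card_subtype, Finset.card_filter, Fintype.sum_sigma, negUp, Finset.sum_range]
    apply Finset.sum_congr rfl
    intro n _
    rw [negSq_eq F.hD (hle n) (hx n), Finset.card_filter]
    apply Finset.sum_congr rfl
    intro t _
    rw [BP_apply]
    have h1 : ∀ a : ℚ, (c - (n : ℕ)).factorial *
        ((X.dim - 2 * (n : ℕ) - (c - (n : ℕ))).factorial : ℚ)⁻¹ * a < 0 ↔ a < 0 := by
      intro a
      rw [← neg_pos, ← mul_neg, mul_pos_iff_of_pos_left (hcp n), neg_pos]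
    simp only [h1]

/-- Orthogonal pairs. -/
structure OP (W : WeilCohomology.{u, v} ops) (X : 𝒱.Obj) (D : X.Cycles)
    (f : Module.End W.K (W.H X)) {J : Type} (z w : J → W.H X) (s s' : J → ℚ) (m : J → ℤ) :
    Prop where
  az : ∀ i, AS W X (z i)
  aw : ∀ i, AS W X (w i)
  wz : ∀ i, wt (W.isInternal X) X.dim (z i) = ((m i : ℤ) : W.K) • z i
  ww : ∀ i, wt (W.isInternal X) X.dim (w i) = ((m i : ℤ) : W.K) • w i
  pos : ∀ i, 0 < s i
  neg : ∀ i, s' i < 0
  bz : ∀ i, bf W X D f (z i) (z i) = (s i : W.K)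
  bw : ∀ i, bf W X D f (w i) (w i) = (s' i : W.K)
  oz : ∀ i j, i ≠ j → bf W X D f (z i) (z j) = 0
  ow : ∀ i j, i ≠ j → bf W X D f (w i) (w j) = 0
  ozw : ∀ i j, bf W X D f (z i) (w j) = 0
  owz : ∀ i j, bf W X D f (w i) (z j) = 0

/-- The pairs in the codimension `c`. -/
theorem pairs_wt (F : Fr W X D f) {c : ℕ} (hc : c ≤ X.dim) :
    ∃ (z w : Fin (min (posUp W X D (min c (X.dim - c))) (negUp W X D (min c (X.dim - c)))) →
      W.H X) (s s' : Fin (min (posUp W X D (min c (X.dim - c)))
        (negUp W X D (min c (X.dim - c)))) → ℚ),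
      OP W X D f z w s s' (fun _ => 2 * c - X.dim) := by
  classical
  obtain ⟨ι, _, y, s, h1, h2, h3, h4, h5, h6⟩ := fam F hc
  obtain ⟨e⟩ : Nonempty (Fin (min (posUp W X D (min c (X.dim - c)))
      (negUp W X D (min c (X.dim - c)))) ↪ {i // 0 < s i}) := by
    apply Function.Embedding.nonempty_of_card_le
    rw [Fintype.card_fin, h5]
    exact min_le_left _ _
  obtain ⟨e'⟩ : Nonempty (Fin (min (posUp W X D (min c (X.dim - c)))
      (negUp W X D (min c (X.dim - c)))) ↪ {i // s i < 0}) := by
    apply Function.Embedding.nonempty_of_card_le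
    rw [Fintype.card_fin, h6]
    exact min_le_right _ _
  have hne : ∀ i j, (e i : ι) ≠ (e' j : ι) := by
    intro i j h
    have h7 := (e i).2
    have h8 := (e' j).2
    rw [h] at h7
    linarith
  exact ⟨fun i => y (e i), fun i => y (e' i), fun i => s (e i), fun i => s (e' i),
    { az := fun i => h1 _
      aw := fun i => h1 _
      wz := fun i => h2 _
      ww := fun i => h2 _
      pos := fun i => (e i).2
      neg := fun i => (e' i).2
      bz := fun i => h3 _
      bw := fun i => h3 _
      oz := fun i j hij => h4 _ _ (fun h => hij (e.injective (Subtype.ext h)))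
      ow := fun i j hij => h4 _ _ (fun h => hij (e'.injective (Subtype.ext h)))
      ozw := fun i j => h4 _ _ (hne i j)
      owz := fun i j => h4 _ _ (hne j i).symm }⟩

/-- Classes of different weights are orthogonal. -/
lemma bf_wt_ne (F : Fr W X D f) {m m' : ℤ} (hne : m ≠ m') {a b : W.H X}
    (ha : wt (W.isInternal X) X.dim a = (m : W.K) • a)
    (hb : wt (W.isInternal X) X.dim b = (m' : W.K) • b) : bf W X D f a b = 0 := by
  have h := wt_self' F a b
  rw [ha, hb, map_smul, LinearMap.smul_apply, map_smul, smul_eq_mul, smul_eq_mul] at h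
  have h1 : ((m - m' : ℤ) : W.K) * bf W X D f a b = 0 := by
    push_cast
    linear_combination h
  rcases mul_eq_zero.1 h1 with h2 | h2
  · exfalso
    have h3 : m - m' = 0 := by exact_mod_cast h2
    omega
  · exact h2

/-- The pairs in all codimensions. -/
theorem pairs_all (F : Fr W X D f) : ∃ (J : Type) (_ : Fintype J) (z w : J → W.H X)
    (s s' : J → ℚ) (m : J → ℤ), OP W X D f z w s s' m ∧ Fintype.card J = pairsNo W X D := by
  classical
  choose z w s s' h using fun c : Fin (X.dim + 1) =>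
    pairs_wt (W := W) (D := D) F (c := c) (Nat.lt_succ_iff.1 c.2)
  have hm : ∀ c c' : Fin (X.dim + 1), c ≠ c' →
      (2 * ((c : ℕ) : ℤ) - X.dim : ℤ) ≠ 2 * ((c' : ℕ) : ℤ) - X.dim := by
    intro c c' hne h0
    apply hne
    apply Fin.ext
    omega
  refine ⟨Σ c : Fin (X.dim + 1), Fin (min (posUp W X D (min c (X.dim - c)))
      (negUp W X D (min c (X.dim - c)))), inferInstance, fun p => z p.1 p.2, fun p => w p.1 p.2,
    fun p => s p.1 p.2, fun p => s' p.1 p.2, fun p => 2 * ((p.1 : ℕ) : ℤ) - X.dim, ?_, ?_⟩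
  · constructor
    · exact fun p => (h p.1).az p.2
    · exact fun p => (h p.1).aw p.2
    · exact fun p => (h p.1).wz p.2
    · exact fun p => (h p.1).ww p.2
    · exact fun p => (h p.1).pos p.2
    · exact fun p => (h p.1).neg p.2
    · exact fun p => (h p.1).bz p.2
    · exact fun p => (h p.1).bw p.2
    · rintro ⟨c, i⟩ ⟨c', j⟩ hne
      by_cases hcc : c = c'
      · subst hcc
        exact (h c).oz i j (fun h0 => hne (by rw [h0]))
      · exact bf_wt_ne F (hm c c' hcc) ((h c).wz i) ((h c').wz j)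
    · rintro ⟨c, i⟩ ⟨c', j⟩ hne
      by_cases hcc : c = c'
      · subst hcc
        exact (h c).ow i j (fun h0 => hne (by rw [h0]))
      · exact bf_wt_ne F (hm c c' hcc) ((h c).ww i) ((h c').ww j)
    · rintro ⟨c, i⟩ ⟨c', j⟩
      by_cases hcc : c = c'
      · subst hcc
        exact (h c).ozw i j
      · exact bf_wt_ne F (hm c c' hcc) ((h c).wz i) ((h c').ww j)
    · rintro ⟨c, i⟩ ⟨c', j⟩
      by_cases hcc : c = c'
      · subst hcc
        exact (h c).owz i j
      · exact bf_wt_ne F (hm c c' hcc) ((h c).ww i) ((h c').wz j)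
  · rw [Fintype.card_sigma, pairsNo, Finset.sum_range]
    apply Finset.sum_congr rfl
    intro c _
    rw [Fintype.card_fin]

/-- The projector of a pair. -/
noncomputable def Pz (W : WeilCohomology.{u, v} ops) (X : 𝒱.Obj) (D : X.Cycles)
    (f : Module.End W.K (W.H X)) (z w : W.H X) (c c' : ℚ) : Module.End W.K (W.H X) :=
  ((c⁻¹ : ℚ) : W.K) • rk W X D f z z + ((c'⁻¹ : ℚ) : W.K) • rk W X D f w w

/-- The exchange of a pair. -/
noncomputable def Tz (W : WeilCohomology.{u, v} ops) (X : 𝒱.Obj) (D : X.Cycles)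
    (f : Module.End W.K (W.H X)) (z w : W.H X) : Module.End W.K (W.H X) :=
  rk W X D f z w + rk W X D f w z

lemma Pz_apply (z w : W.H X) (c c' : ℚ) (x : W.H X) : Pz W X D f z w c c' x =
    ((c⁻¹ : ℚ) : W.K) • bf W X D f x z • z + ((c'⁻¹ : ℚ) : W.K) • bf W X D f x w • w := rfl

lemma Tz_apply (z w : W.H X) (x : W.H X) : Tz W X D f z w x =
    bf W X D f x z • w + bf W X D f x w • z := rfl

/-- Two algebraic classes of the same weight with opposite signs give a pair. -/
theorem pair_mk (F : Fr W X D f) (S : Sy W X D f) {m : ℤ} {z w : W.H X} (hz : AS W X z)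
    (hw : AS W X w)
    (hzm : wt (W.isInternal X) X.dim z = (m : W.K) • z)
    (hwm : wt (W.isInternal X) X.dim w = (m : W.K) • w) {c c' : ℚ} (hc : 0 < c) (hc' : c' < 0)
    (hzz : bf W X D f z z = (c : W.K)) (hww : bf W X D f w w = (c' : W.K))
    (hzw : bf W X D f z w = 0) :
    Pair W X D f (Pz W X D f z w c c') (Tz W X D f z w) (c * c') := by
  have hs : ∀ (y : W.H X) {a : W.H X}, AS W X a → bf W X D f y a = bf W X D f a y := by
    intro y a ha
    rw [S y a, par_AS ha]
  have hwz : bf W X D f w z = 0 := by rw [hs w hz, hzw]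
  have hc0 : (c : W.K) ≠ 0 := by exact_mod_cast hc.ne'
  have hc0' : (c' : W.K) ≠ 0 := by exact_mod_cast hc'.ne
  have hci : ((c⁻¹ : ℚ) : W.K) * (c : W.K) = 1 := by
    rw [Rat.cast_inv, inv_mul_cancel₀ hc0]
  have hci' : ((c'⁻¹ : ℚ) : W.K) * (c' : W.K) = 1 := by
    rw [Rat.cast_inv, inv_mul_cancel₀ hc0']
  have hPz : Pz W X D f z w c c' z = z := by
    rw [Pz_apply, hzz, hzw, zero_smul, smul_zero, add_zero, smul_smul, hci, one_smul]
  have hPw : Pz W X D f z w c c' w = w := by
    rw [Pz_apply, hww, hwz, zero_smul, smul_zero, zero_add, smul_smul, hci', one_smul]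
  refine ⟨⟨?_, ?_⟩, ⟨?_, ?_⟩, ?_, ?_, ?_, ?_, ?_⟩
  · exact ((rk_aop F hz hz).smul _).add ((rk_aop F hw hw).smul _)
  · exact ((rk_wt F hzm hzm).smul_left _).add_left ((rk_wt F hwm hwm).smul_left _)
  · exact (rk_aop F hz hw).add (rk_aop F hw hz)
  · exact (rk_wt F hzm hwm).add_left (rk_wt F hwm hzm)
  · apply LinearMap.ext
    intro x
    rw [Module.End.mul_apply]
    conv_lhs => rw [Pz_apply z w c c' x]
    rw [map_add, map_smul, map_smul, map_smul, map_smul, hPz, hPw]
    rfl
  · apply LinearMap.ext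
    intro x
    rw [Module.End.mul_apply, Tz_apply, map_add, map_smul, map_smul, hPz, hPw]
  · intro x y
    rw [Pz_apply, Pz_apply]
    simp only [map_add, map_smul, LinearMap.add_apply, LinearMap.smul_apply, smul_eq_mul]
    rw [hs y hz, hs y hw]
    ring
  · intro x y
    rw [Pz_apply, Tz_apply, Tz_apply]
    simp only [map_add, map_smul, LinearMap.add_apply, LinearMap.smul_apply, smul_eq_mul, hzz,
      hww, hzw, hwz]
    rw [hs y hz, hs y hw]
    push_cast
    field_simp
    ring
  · exact mul_neg_of_pos_of_neg hc hc'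

section Ops

variable {J : Type} {z w : J → W.H X} {s s' : J → ℚ} {m : J → ℤ}

/-- The pair of operators with the index `i`. -/
noncomputable def pp (W : WeilCohomology.{u, v} ops) (X : 𝒱.Obj) (D : X.Cycles)
    (f : Module.End W.K (W.H X)) (z w : J → W.H X) (s s' : J → ℚ) (i : J) :
    Module.End W.K (W.H X) × Module.End W.K (W.H X) × ℚ :=
  (Pz W X D f (z i) (w i) (s i) (s' i), Tz W X D f (z i) (w i), s i * s' i)

lemma comm_pp (h : OP W X D f z w s s' m) {i j : J} (hij : i ≠ j) :
    Comm (pp W X D f z w s s' i) (pp W X D f z w s s' j) := by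
  have a1 := h.oz i j hij
  have a2 := h.oz j i hij.symm
  have a3 := h.ow i j hij
  have a4 := h.ow j i hij.symm
  have a5 := h.ozw i j
  have a6 := h.ozw j i
  have a7 := h.owz i j
  have a8 := h.owz j i
  refine ⟨?_, ?_, ?_⟩
  · change _ * _ = _ * _
    simp only [pp, Pz, mul_add, add_mul, smul_mul_assoc, mul_smul_comm, rk_mul, a1, a2, a3, a4,
      a5, a6, a7, a8, zero_smul, smul_zero, add_zero]
  · change _ * _ = _ * _
    simp only [pp, Pz, Tz, mul_add, add_mul, smul_mul_assoc, mul_smul_comm, rk_mul, a1, a2, a3,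
      a4, a5, a6, a7, a8, zero_smul, smul_zero, add_zero]
  · change _ * _ = _ * _
    simp only [pp, Pz, Tz, mul_add, add_mul, smul_mul_assoc, mul_smul_comm, rk_mul, a1, a2, a3,
      a4, a5, a6, a7, a8, zero_smul, smul_zero, add_zero]

/-- The image of the product of the complementary projectors is orthogonal to all classes of the
pairs. -/
lemma orth_QK (h : OP W X D f z w s s' m) (l : List J)
    (hl : l.Nodup) (x : W.H X) : ∀ i ∈ l,
      bf W X D f (QK (l.map (pp W X D f z w s s')) x) (z i) = 0 ∧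
      bf W X D f (QK (l.map (pp W X D f z w s s')) x) (w i) = 0 := by
  induction l with
  | nil => intro i hi; simp at hi
  | cons a l ih =>
    have ih := ih hl.of_cons
    have hal : a ∉ l := (List.nodup_cons.1 hl).1
    rw [List.map_cons, QK_cons]
    set y := QK (l.map (pp W X D f z w s s')) x with hy
    have hyy : ((1 - (pp W X D f z w s s' a).1) * QK (l.map (pp W X D f z w s s'))) x =
        y - (((s a)⁻¹ : ℚ) : W.K) • bf W X D f y (z a) • z a -
          (((s' a)⁻¹ : ℚ) : W.K) • bf W X D f y (w a) • w a := by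
      rw [Module.End.mul_apply, ← hy, LinearMap.sub_apply, Module.End.one_apply]
      change y - Pz W X D f (z a) (w a) (s a) (s' a) y = _
      rw [Pz_apply, sub_sub]
    have hc0 : ((s a : ℚ) : W.K) ≠ 0 := by exact_mod_cast (h.pos a).ne'
    have hc0' : ((s' a : ℚ) : W.K) ≠ 0 := by exact_mod_cast (h.neg a).ne
    intro i hi
    rw [hyy]
    simp only [map_sub, map_smul, LinearMap.sub_apply, LinearMap.smul_apply, smul_eq_mul]
    by_cases hia : i = a
    · subst hia
      rw [h.bz, h.bw, h.ozw, h.owz, Rat.cast_inv, Rat.cast_inv]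
      constructor
      · field_simp
        ring
      · field_simp
        ring
    · have hil : i ∈ l := by
        rcases List.mem_cons.1 hi with h0 | h0
        · exact absurd h0 hia
        · exact h0
      have h1 := ih i hil
      rw [h1.1, h1.2, h.oz a i (fun h0 => hia h0.symm), h.ow a i (fun h0 => hia h0.symm), h.ozw,
        h.owz]
      constructor <;> ring

end Ops

/-- **Job PAIRS.** -/
theorem t_PAIRS : S_PAIRS.{u, v} := by
  intro k _ 𝒱 ops W X D f F S
  classical
  obtain ⟨J, _, z, w, s, s', m, h, hJ⟩ := pairs_all (W := W) (D := D) F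
  have hnd := (Finset.univ : Finset J).nodup_toList
  refine ⟨(Finset.univ : Finset J).toList.map (pp W X D f z w s s'), ?_, ?_, ?_⟩
  · intro a ha
    obtain ⟨i, _, rfl⟩ := List.mem_map.1 ha
    exact pair_mk F S (h.az i) (h.aw i) (h.wz i) (h.ww i) (h.pos i) (h.neg i) (h.bz i) (h.bw i)
      (h.ozw i i)
  · rw [List.pairwise_map]
    exact List.Pairwise.imp (fun hij => comm_pp h hij) hnd
  · let Φ : W.H X →ₗ[W.K] (J ⊕ J → W.K) := LinearMap.pi (fun i =>
      Sum.elim (fun j => (bf W X D f).flip (z j)) (fun j => (bf W X D f).flip (w j)) i)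
    have hΦl : ∀ x j, Φ x (Sum.inl j) = bf W X D f x (z j) := fun x j => rfl
    have hΦr : ∀ x j, Φ x (Sum.inr j) = bf W X D f x (w j) := fun x j => rfl
    have h1 : LinearMap.range (QK ((Finset.univ : Finset J).toList.map
        (pp W X D f z w s s'))) ≤ LinearMap.ker Φ := by
      rintro _ ⟨x, rfl⟩
      rw [LinearMap.mem_ker]
      funext i
      rcases i with j | j
      · rw [hΦl]
        exact (orth_QK h _ hnd x j (Finset.mem_toList.2 (Finset.mem_univ j))).1
      · rw [hΦr]
        exact (orth_QK h _ hnd x j (Finset.mem_toList.2 (Finset.mem_univ j))).2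
    have h2 : LinearMap.range Φ = ⊤ := by
      rw [LinearMap.range_eq_top]
      intro g
      refine ⟨∑ j, ((s j : W.K)⁻¹ * g (Sum.inl j)) • z j +
        ∑ j, ((s' j : W.K)⁻¹ * g (Sum.inr j)) • w j, ?_⟩
      funext i
      rcases i with j | j
      · have hc0 : ((s j : ℚ) : W.K) ≠ 0 := by exact_mod_cast (h.pos j).ne'
        rw [hΦl, map_add, LinearMap.add_apply, map_sum, map_sum, LinearMap.sum_apply,
          LinearMap.sum_apply, Finset.sum_eq_single j, Finset.sum_eq_zero, add_zero, map_smul,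
          LinearMap.smul_apply, h.bz, smul_eq_mul]
        · field_simp
        · intro i _
          rw [map_smul, LinearMap.smul_apply, h.owz, smul_zero]
        · intro i _ hij
          rw [map_smul, LinearMap.smul_apply, h.oz i j hij, smul_zero]
        · intro h0; exact absurd (Finset.mem_univ _) h0
      · have hc0 : ((s' j : ℚ) : W.K) ≠ 0 := by exact_mod_cast (h.neg j).ne
        rw [hΦr, map_add, LinearMap.add_apply, map_sum, map_sum, LinearMap.sum_apply,
          LinearMap.sum_apply, Finset.sum_eq_zero, Finset.sum_eq_single j, zero_add, map_smul,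
          LinearMap.smul_apply, h.bw, smul_eq_mul]
        · field_simp
        · intro i _ hij
          rw [map_smul, LinearMap.smul_apply, h.ow i j hij, smul_zero]
        · intro h0; exact absurd (Finset.mem_univ _) h0
        · intro i _
          rw [map_smul, LinearMap.smul_apply, h.ozw, smul_zero]
    have h3 := LinearMap.finrank_range_add_finrank_ker Φ
    rw [h2, finrank_top, Module.finrank_fintype_fun_eq_card, Fintype.card_sum, hJ] at h3
    have h4 := Submodule.finrank_mono h1
    omega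

end Pool.Agent.V5helper18.SL.PAIRS
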